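import Pool.Agent.Y716.D.ZeroCycle

/-!
# Zero-cycles of degree one on 100% of the cubic surfaces and cubic hypersurfaces

Let `n ≥ 3`. Among the smooth cubic hypersurfaces `f = 0` in `ℙⁿ`, with integral cubic forms with
coefficients bounded by `H`, which have zero-cycles of degree one over the real numbers and over all
the `p`-adic fields, a proportion tending to `1` as `H → ∞` has a rational point, in particular a
zero-cycle of degree one over the rational numbers.
-/

set_option autoImplicit false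

namespace Pool.Agent.Results.MP_1ad228_nt.CubicZeroCycles

/-- The cubic forms in `n + 1` variables whose coefficients are integers of absolute value at
most `H`. -/
def Forms (n H : ℕ) : Set (MvPolynomial (Fin (n + 1)) ℤ) :=
  {f | f.IsHomogeneous 3 ∧ ∀ m, |f.coeff m| ≤ (H : ℤ)}

/-- The hypersurface `f = 0` in `ℙⁿ` is smooth: there is no point over a field of characteristic
zero at which `f` and all its partial derivatives vanish. -/
def Smooth {n : ℕ} (f : MvPolynomial (Fin (n + 1)) ℤ) : Prop :=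
  ∀ (K : Type) [Field K] [CharZero K] (x : Fin (n + 1) → K), x ≠ 0 → MvPolynomial.aeval x f = 0 →
    ∃ i, MvPolynomial.aeval x (MvPolynomial.pderiv i f) ≠ 0

/-- The hypersurface `f = 0` in `ℙⁿ` has a rational point. -/
def HasRationalPoint {n : ℕ} (f : MvPolynomial (Fin (n + 1)) ℤ) : Prop :=
  ∃ x : Fin (n + 1) → ℚ, x ≠ 0 ∧ MvPolynomial.aeval x f = 0

/-- The hypersurface `f = 0` in `ℙⁿ` has a zero-cycle of degree one over the field `K`: there are
finitely many finite extensions `L i` of `K` over which it has a point, and integers `m i` with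
`∑ m i * [L i : K] = 1`. (A point over `L i` is a closed point together with an embedding of its
residue field in `L i`, so this says that the degrees of the closed points have greatest common
divisor one.) -/
def HasZeroCycleOfDegreeOne {n : ℕ} (f : MvPolynomial (Fin (n + 1)) ℤ) (K : Type)
    [Field K] : Prop :=
  ∃ (t : ℕ) (L : Fin t → Type) (_ : ∀ i, Field (L i)) (_ : ∀ i, Algebra K (L i)) (m : Fin t → ℤ),
    (∀ i, FiniteDimensional K (L i)) ∧
    (∀ i, ∃ x : Fin (n + 1) → L i, x ≠ 0 ∧ MvPolynomial.aeval x f = 0) ∧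
    ∑ i, m i * (Module.finrank K (L i) : ℤ) = 1

theorem ncard_one (n : ℕ) (P : MvPolynomial (Fin (n + 1)) ℤ → Prop)
    (Q : (Fin 1 → MvPolynomial (Fin (n + 1)) ℤ) → Prop) (h : ∀ f, Q (fun _ => f) ↔ P f) (H : ℕ) :
    ({f | f ∈ Forms n H ∧ P f} : Set _).ncard =
    ({f : Fin 1 → MvPolynomial (Fin (n + 1)) ℤ | (∀ j, (f j).IsHomogeneous 3 ∧
      ∀ m, |(f j).coeff m| ≤ (H : ℤ)) ∧ Q f} : Set _).ncard := by
  have h1 : ({f : Fin 1 → MvPolynomial (Fin (n + 1)) ℤ | (∀ j, (f j).IsHomogeneous 3 ∧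
      ∀ m, |(f j).coeff m| ≤ (H : ℤ)) ∧ Q f} : Set _) =
      (fun (f : MvPolynomial (Fin (n + 1)) ℤ) (_ : Fin 1) => f) '' {f | f ∈ Forms n H ∧ P f} := by
    ext g
    constructor
    · intro hg
      refine ⟨g 0, ⟨hg.1 0, (h (g 0)).mp ?_⟩, ?_⟩
      · have : (fun _ : Fin 1 => g 0) = g := funext fun j => by rw [Subsingleton.elim j 0]
        rw [this]; exact hg.2
      · exact funext fun j => by rw [Subsingleton.elim j 0]
    · rintro ⟨f, hf, rfl⟩
      exact ⟨fun _ => hf.1, (h f).mpr hf.2⟩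
  rw [h1, Set.ncard_image_of_injective]
  intro f g hfg
  exact congrFun hfg 0

/-- For `n ≥ 3`, 100% of the smooth cubic hypersurfaces in `ℙⁿ`, ordered by height, which have
zero-cycles of degree one over the real numbers and over all the `p`-adic fields have a rational
point. -/
theorem result (n : ℕ) (hn : 3 ≤ n) :
    Filter.Tendsto (fun H : ℕ =>
      (({f | f ∈ Forms n H ∧ Smooth f ∧ HasRationalPoint f} : Set _).ncard : ℝ) /
      (({f | f ∈ Forms n H ∧ Smooth f ∧ HasZeroCycleOfDegreeOne f ℝ ∧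
        ∀ (p : ℕ) [Fact p.Prime], HasZeroCycleOfDegreeOne f ℚ_[p]} : Set _).ncard : ℝ))
    Filter.atTop (nhds 1) := by
  have hS : ∀ f : MvPolynomial (Fin (n + 1)) ℤ,
      Pool.Agent.Y697.C13.SmoothS (fun _ : Fin 1 => f) ↔ Smooth f := by
    intro f
    constructor
    · intro hf K _ _ x hx h0
      obtain ⟨i, hi⟩ := hf K x (fun _ => 1) hx (fun h => one_ne_zero (congrFun h 0)) (fun _ => h0)
      exact ⟨i, fun h1 => hi (by simp [h1])⟩
    · intro hf K _ _ x l hx hl h0
      obtain ⟨i, hi⟩ := hf K x hx (h0 0)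
      have hl0 : l 0 ≠ 0 := fun h1 => hl (funext fun j => by rw [Subsingleton.elim j 0, h1]; rfl)
      exact ⟨i, by simpa using ⟨hl0, hi⟩⟩
  have hQ : ∀ f : MvPolynomial (Fin (n + 1)) ℤ,
      (∃ x : Fin (n + 1) → ℚ, x ≠ 0 ∧ ∀ _ : Fin 1, MvPolynomial.aeval x f = 0) ↔
        HasRationalPoint f := by
    intro f
    unfold HasRationalPoint
    simp only [forall_const]
  have hZ : ∀ (f : MvPolynomial (Fin (n + 1)) ℤ) (K : Type) [Field K],
      Pool.Agent.Y716.C.ZC (fun _ : Fin 1 => f) K ↔ HasZeroCycleOfDegreeOne f K := by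
    intro f K _
    unfold Pool.Agent.Y716.C.ZC HasZeroCycleOfDegreeOne
    simp only [forall_const]
  refine (Pool.Agent.Y716.D.zc_cubic_smooth n hn).congr (fun H => ?_)
  rw [ncard_one n (fun f => Smooth f ∧ HasRationalPoint f)
    (fun f => Pool.Agent.Y697.C13.SmoothS f ∧
      ∃ x : Fin (n + 1) → ℚ, x ≠ 0 ∧ ∀ j, MvPolynomial.aeval x (f j) = 0)
    (fun f => by rw [hS, ← hQ]) H,
    ncard_one n (fun f => Smooth f ∧ HasZeroCycleOfDegreeOne f ℝ ∧
      ∀ (p : ℕ) [Fact p.Prime], HasZeroCycleOfDegreeOne f ℚ_[p])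
    (fun f => Pool.Agent.Y697.C13.SmoothS f ∧ Pool.Agent.Y716.C.ZC f ℝ ∧
      ∀ (p : ℕ) [Fact p.Prime], Pool.Agent.Y716.C.ZC f ℚ_[p])
    (fun f => by simp only [hS, hZ]) H]

end Pool.Agent.Results.MP_1ad228_nt.CubicZeroCycles
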