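import Pool.Agent.Y710.EE.One

/-!
Let `ℓ` be a prime, `m = ℓ ^ r`, `k` a finite field with `q` elements, `m` dividing `q - 1`, and
`A(x)` a polynomial over `k` of degree `n`. The orders of vanishing at `s = 1` of the L-functions of
the Jacobian `J` of `y ^ m = A(x) - t` over all Galois extensions `L` of `k(t)` of degree a power
of `ℓ`.
-/

set_option autoImplicit false
set_option maxHeartbeats 1000000

open Polynomial

namespace Pool.Agent.Results.MP_1ad228_nt.EllExtensions

/-- The monic irreducible polynomials over `F`: the closed points of the affine line over `F`. -/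
abbrev ClosedPt (F : Type) [CommRing F] : Type := {P : F[X] // P.Monic ∧ Irreducible P}

/-- The order of `g(Q)` in the group `κˣ / (κˣ) ^ m`, where `κ` is the residue field of `Q`: the least
positive `o` such that `g ^ o` is an `m`-th power modulo `Q`. -/
noncomputable def powerOrder {F : Type} [CommRing F] (m : ℕ) (g Q : F[X]) : ℕ :=
  sInf {o | 0 < o ∧ ∃ s : F[X], Q ∣ g ^ o - s ^ m}

open Classical in
/-- The Euler factor of the Jacobian of `y ^ m = g(x)` at the closed point `Q`, of degree `n`, of the
`x`-line: the product of `1 - χ(g(Q)) T ^ n` over the nontrivial characters `χ` of `κˣ` with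
`χ ^ m = 1`, where `χ(0) = 0`. It is `1` if `g` vanishes at `Q`; otherwise it is
`(1 - T ^ (n o)) ^ (m / o) / (1 - T ^ n)`, where `o` is the order of `g(Q)` modulo `m`-th powers. -/
noncomputable def localFactor {F : Type} [CommRing F] (m : ℕ) (g Q : F[X]) (n : ℕ) :
    PowerSeries ℤ :=
  if Q ∣ g then 1 else (∑ i ∈ Finset.range (powerOrder m g Q), (PowerSeries.X ^ n) ^ i) *
    (1 - (PowerSeries.X ^ n) ^ powerOrder m g Q) ^ (m / powerOrder m g Q - 1)

/-- The Euler product: its coefficient of index `n` is that of the product of the factors of degree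
at most `n`. -/
noncomputable def eulerProduct {ι : Type} (d : ι → ℕ) (f : ι → PowerSeries ℤ) : PowerSeries ℤ :=
  PowerSeries.mk fun n => PowerSeries.coeff n (∏ᶠ (i : ι) (_ : d i ≤ n), f i)

section places

variable (k L : Type) [Field k] [Field L] [Algebra k[X] L]

/-- The functions in `L` which are regular outside `t = ∞`: the integral closure of `k[t]`. -/
abbrev Reg : Type := integralClosure k[X] L

/-- The places of `L` which are not over `t = ∞`. -/
abbrev Place : Type := MaximalSpectrum (Reg k L)

variable {k L}

/-- The residue field of a place. -/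
abbrev Res (w : Place k L) : Type := Reg k L ⧸ w.asIdeal

/-- The value at `w` of a polynomial in `t`. -/
noncomputable def value (w : Place k L) : k[X] →+* Res w :=
  (Ideal.Quotient.mk w.asIdeal).comp (algebraMap k[X] (Reg k L))

/-- The degree over `k` of a place: the residue field has `|k| ^ degree` elements. -/
noncomputable def placeDegree (w : Place k L) : ℕ := Nat.log (Nat.card k) (Nat.card (Res w))

/-- The polynomial `A(x) - t` over the residue field of `w`. -/
noncomputable def fibre (A : k[X]) (w : Place k L) : (Res w)[X] :=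
  A.map ((value w).comp C) - C (value w X)

variable (k L)

/-- The closed points of the affine line over the residue fields of the places. -/
structure Point : Type where
  place : Place k L
  point : ClosedPt (Res place)

variable {k L}

/-- The degree over `k` of such a point. -/
noncomputable def Point.degree (z : Point k L) : ℕ := placeDegree z.place * z.point.1.natDegree

/-- The Euler factor of such a point. -/
noncomputable def Point.factor (m : ℕ) (A : k[X]) (z : Point k L) : PowerSeries ℤ :=
  localFactor m (fibre A z.place) z.point.1 z.degree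

variable (k L)

/-- The `L`-function over `L`, in the variable `T = q ^ (-s)`, of the Jacobian of
`y ^ m = A(x) - t`. -/
noncomputable def Lfun (m : ℕ) (A : k[X]) : PowerSeries ℤ :=
  eulerProduct (fun z : Point k L => z.degree) (fun z => z.factor m A)

/-- `L(T) = (1 - q T) ^ M G(T)` with an integral polynomial `G`: the function vanishes to order at
least `M` at `s = 1`. -/
def VanishesTo (m : ℕ) (A : k[X]) (M : ℕ) : Prop :=
  ∃ G : ℤ[X], Lfun k L m A = (((1 - C (Nat.card k : ℤ) * X) ^ M * G : ℤ[X]) : PowerSeries ℤ)

/-- The ramification index in `L` of the place `P` of `k(t)`. -/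
noncomputable def ramification (P : ClosedPt k) : ℕ :=
  Ideal.ramificationIdxIn (Ideal.span {P.1} : Ideal k[X]) (Reg k L)

end places

section polynomials

variable {k : Type} [Field k]

open Classical in
/-- The monic irreducible factors of a polynomial. -/
noncomputable def primes (g : k[X]) : Finset k[X] :=
  (UniqueFactorizationMonoid.normalizedFactors g).toFinset

/-- The greatest power of `ℓ` dividing `n`. -/
def lPart (ℓ n : ℕ) : ℤ := (ℓ : ℤ) ^ padicValNat ℓ n

/-- The sum of `lPart (deg Q)` over the points `Q` of the `x`-line over `P`, which are the prime factors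
of `P(A(x))`, minus `lPart (deg P)`. -/
noncomputable def excess (ℓ : ℕ) (A : k[X]) (P : ClosedPt k) : ℤ :=
  ∑ Q ∈ primes (P.1.comp A), lPart ℓ Q.natDegree - lPart ℓ P.1.natDegree

/-- The degree `n` of `A` is at least two and prime to `ℓ` and to the characteristic. -/
structure IsAdmissible (ℓ : ℕ) (A : k[X]) : Prop where
  degree : 2 ≤ A.natDegree
  prime_to : ¬ ℓ ∣ A.natDegree
  tame : (A.natDegree : k) ≠ 0

/-- The ramification indices of `x ↦ A(x)` over the place `P`, which are the multiplicities of the prime
factors of `P(A(x))`, are prime to `ℓ` and to the characteristic. -/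
def IsTameOver (ℓ : ℕ) (A : k[X]) (P : ClosedPt k) : Prop :=
  ∀ (Q : k[X]) (e : ℕ), Irreducible Q → e ≠ 0 → Q ^ e ∣ P.1.comp A → ¬ Q ^ (e + 1) ∣ P.1.comp A →
    ¬ ℓ ∣ e ∧ (e : k) ≠ 0

/-- There is only one point of the `x`-line over the place `P`: all prime factors of `P(A(x))` are
equal, up to constants. This holds if `P(A(x))` is irreducible. -/
def OnePointOver (A : k[X]) (P : ClosedPt k) : Prop :=
  ∀ Q Q' : ClosedPt k, Q.1 ∣ P.1.comp A → Q'.1 ∣ P.1.comp A → Q = Q'

variable (k) in
/-- `L` is a Galois extension of `k(t)` of degree `ℓ ^ a`, all finite places of `k(t)` which ramify in `L`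
are in the finite set `R`, and `x ↦ A(x)` has ramification indices prime to `ℓ` and to the
characteristic over the places in `R`. -/
structure IsEllExtension (ℓ a : ℕ) (A : k[X]) (R : Finset (ClosedPt k)) (L : Type) [Field L]
    [Algebra k[X] L] [Algebra (RatFunc k) L] : Prop where
  galois : IsGalois (RatFunc k) L
  degree : Module.finrank (RatFunc k) L = ℓ ^ a
  unramified : ∀ P : ClosedPt k, P ∉ R → ramification k L P = 1
  tame : ∀ P ∈ R, IsTameOver ℓ A P

end polynomials

/-- the equivalence of the two descriptions of the points -/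
noncomputable def pointEquiv (k L : Type) [Field k] [Field L] [Algebra k[X] L] :
    (Σ w : MaximalSpectrum (integralClosure k[X] L),
      Pool.Agent.W313.Hyp.MI (integralClosure k[X] L ⧸ w.asIdeal)) ≃ Point k L where
  toFun z := ⟨z.1, z.2⟩
  invFun z := ⟨z.place, z.point⟩
  left_inv _ := rfl
  right_inv _ := rfl

theorem Lfun_eq (k L : Type) [Field k] [Field L] [Algebra k[X] L] (m : ℕ) (A : k[X]) :
    Lfun k L m A = Pool.Agent.Y710.EE.LE (integralClosure k[X] L) m A := by
  unfold Lfun Pool.Agent.Y710.EE.LE eulerProduct Pool.Agent.W343.BSD.eulerProd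
  ext n
  rw [PowerSeries.coeff_mk, PowerSeries.coeff_mk]
  congr 1
  exact (finprod_comp_equiv (pointEquiv k L)
    (f := fun z : Point k L => ∏ᶠ (_ : z.degree ≤ n), z.factor m A)).symm

/-- **Finite Tate-Shafarevich groups over `ℓ`-extensions.**

Let `ℓ` be a prime, `m = ℓ ^ r > 1`, `k` a finite field with `q` elements, `m` dividing `q - 1`, and `A`
in `k[x]` of degree `n ≥ 2` prime to `ℓ` and to the characteristic. Let `J` be the Jacobian, of
dimension `(m - 1) (n - 1) / 2`, of the curve `y ^ m = A(x) - t` over `K = k(t)`, and `L` a Galois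
extension of `K` of degree `ℓ ^ a`, with any ramification at infinity, and ramified at finite places
only at places in `R` over which the ramification indices of `x ↦ A(x)` are prime to `ℓ` and to the
characteristic.

The function `Lfun` is the L-function of `J` over `L`, a polynomial in `T = q ^ (-s)`: the surface
`y ^ m = A(x) - t` is smooth (it is the graph of `t = A(x) - y ^ m`) and the curves have one smooth
point at `x = ∞`, so that the inertia invariants at the places of `L` over unramified finite places
are the first cohomology of the fibres; over the places in `R` inertia acts on the vanishing cycles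
with the eigenvalues `ζ_m ^ i ζ_e ^ j`, `i, j ≠ 0`, at a point of ramification index `e` of `A`, and at
infinity it acts with the eigenvalues `ζ_m ^ i ζ_n ^ j`, `i, j ≠ 0`, so that there are no invariants
after a ramified extension of degree a power of `ℓ`.

(1) If `L(T) = (1 - q T) ^ M G(T)` with an integral polynomial `G` then `M` is at most `m - 1` times the
sum over the places `P` in `R` of `(N - N / e(P)) excess(P)`, where `N = ℓ ^ a` is the degree of `L` and
`e(P)` its ramification index at `P`.

(2) If there is only one point of the `x`-line over each `P` in `R`, for instance if `R` is empty or if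
the `P(A(x))` are irreducible, then the L-function of `J` over `L` does not vanish at `s = 1`. By the
theorems of Tate, Milne and Kato and Trihan `J(L)` and the Tate-Shafarevich group of `J` over `L` are
finite. -/
theorem result (ℓ : ℕ) (hℓ : ℓ.Prime) (r : ℕ) (_hr : r ≠ 0) (k : Type) [Field k] [Finite k]
    (hq : ℓ ^ r ∣ Nat.card k - 1) (A : k[X]) (hA : IsAdmissible ℓ A) (L : Type) [Field L]
    [Algebra k[X] L] [Algebra (RatFunc k) L] [IsScalarTower k[X] (RatFunc k) L] (a : ℕ)
    (R : Finset (ClosedPt k)) (hL : IsEllExtension k ℓ a A R L) :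
    (∀ M : ℕ, VanishesTo k L (ℓ ^ r) A M → (M : ℤ) ≤ ((ℓ : ℤ) ^ r - 1) *
      ∑ P ∈ R, ((ℓ ^ a - ℓ ^ a / ramification k L P : ℕ) : ℤ) * excess ℓ A P) ∧
    ((∀ P ∈ R, OnePointOver A P) → ¬ VanishesTo k L (ℓ ^ r) A 1) := by
  have hA0 : 0 < A.natDegree := by have := hA.degree; omega
  have hq' : ((Nat.card k : ℕ) : ZMod ℓ) = 1 := by
    have hk1 : 1 < Nat.card k := Finite.one_lt_card
    have h1 := (ZMod.natCast_eq_zero_iff _ _).2 ((dvd_pow_self ℓ _hr).trans hq)
    rw [Nat.cast_sub hk1.le, Nat.cast_one, sub_eq_zero] at h1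
    exact h1
  have hgal := hL.galois
  have hfin : FiniteDimensional (RatFunc k) L := by
    apply Module.finite_of_finrank_pos
    rw [hL.degree]
    exact Nat.pow_pos hℓ.pos
  have hsum : ∀ P : ClosedPt k, ((∑ Q ∈ Pool.Agent.W313.Hyp.facs (P.1.comp A),
      ℓ ^ padicValNat ℓ Q.1.natDegree : ℕ) : ℤ) =
      ∑ Q ∈ primes (P.1.comp A), lPart ℓ Q.natDegree := by
    intro P
    have h1 := Pool.Agent.TH943.HJ.sum_primes (Pool.Agent.TH943.HJ.comp_ne hA0 P)
      (fun Q => ℓ ^ padicValNat ℓ Q.natDegree)
    rw [h1, Nat.cast_sum]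
    refine Finset.sum_congr rfl fun Q _ => ?_
    rw [Nat.cast_pow]
    rfl
  have h1 : ∀ M : ℕ, VanishesTo k L (ℓ ^ r) A M → (M : ℤ) ≤ ((ℓ : ℤ) ^ r - 1) *
      ∑ P ∈ R, ((ℓ ^ a - ℓ ^ a / ramification k L P : ℕ) : ℤ) * excess ℓ A P := by
    rintro M ⟨G, hG⟩
    rw [Lfun_eq] at hG
    have h2 := Pool.Agent.Y710.EE.main hℓ hq' hA0 hL.degree R hL.unramified M G hG
    have h3 : ((ℓ ^ r - 1 : ℕ) : ℤ) = (ℓ : ℤ) ^ r - 1 := by
      rw [Nat.cast_sub (Nat.one_le_pow _ _ hℓ.pos), Nat.cast_pow, Nat.cast_one]
    zify at h2
    rw [h3] at h2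
    have h4 : ∑ P ∈ R, ((ℓ ^ a - ℓ ^ a / ramification k L P : ℕ) : ℤ) * excess ℓ A P =
        ∑ P ∈ R, ((ℓ ^ a - ℓ ^ a / ramification k L P : ℕ) : ℤ) *
          ((∑ Q ∈ Pool.Agent.W313.Hyp.facs (P.1.comp A),
            ℓ ^ padicValNat ℓ Q.1.natDegree : ℕ) : ℤ) -
        ∑ P ∈ R, ((ℓ ^ a - ℓ ^ a / ramification k L P : ℕ) : ℤ) *
          (ℓ : ℤ) ^ padicValNat ℓ P.1.natDegree := by
      rw [← Finset.sum_sub_distrib]
      refine Finset.sum_congr rfl fun P _ => ?_
      rw [hsum P, ← mul_sub]
      rfl
    have h5 : ∀ P : ClosedPt k, Pool.Agent.Y710.EE.ramE (integralClosure k[X] L) P =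
        ramification k L P := fun P => rfl
    simp only [h5] at h2
    rw [h4, mul_sub]
    push_cast at h2 ⊢
    linarith
  refine ⟨h1, ?_⟩
  intro hR hV
  have h2 := h1 1 hV
  have h3 : ∑ P ∈ R, ((ℓ ^ a - ℓ ^ a / ramification k L P : ℕ) : ℤ) * excess ℓ A P = 0 := by
    refine Finset.sum_eq_zero fun P hP => ?_
    have h4 := Pool.Agent.Y710.EE.one_point hℓ hA0 hA.prime_to P (hR P hP)
    have h5 : excess ℓ A P = 0 := by
      unfold excess
      rw [← hsum P, h4, Nat.cast_pow]
      exact sub_self _
    rw [h5, mul_zero]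
  rw [h3, mul_zero] at h2
  simp at h2

end Pool.Agent.Results.MP_1ad228_nt.EllExtensions
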