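import Pool.Agent.Y716.D.ZeroCycle

/-!
# Zero-cycles of degree one on 100% of the intersections of two quadrics in `ℙⁿ`, `n ≥ 4`

Let `n ≥ 4`. Among the smooth complete intersections `q 0 = q 1 = 0` of two quadrics in `ℙⁿ`, with
integral quadratic forms with coefficients bounded by `H`, which have zero-cycles of degree one over
the real numbers and over all the `p`-adic fields, a proportion tending to `1` as `H → ∞` has a
rational point, in particular a zero-cycle of degree one over the rational numbers.
-/

set_option autoImplicit false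

namespace Pool.Agent.Results.MP_1ad228_nt.TwoQuadricsZeroCycles

/-- The pairs of quadratic forms in `n + 1` variables whose coefficients are integers of absolute
value at most `H`. -/
def Pairs (n H : ℕ) : Set (Fin 2 → MvPolynomial (Fin (n + 1)) ℤ) :=
  {q | ∀ j, (q j).IsHomogeneous 2 ∧ ∀ m, |(q j).coeff m| ≤ (H : ℤ)}

/-- The quadratic forms `q 0, q 1` define a smooth complete intersection in `ℙⁿ`: at every common
zero over a field of characteristic zero the Jacobian matrix has rank `2`, that is, no nontrivial
linear combination of the gradients of the two forms vanishes there. -/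
def Smooth {n : ℕ} (q : Fin 2 → MvPolynomial (Fin (n + 1)) ℤ) : Prop :=
  ∀ (K : Type) [Field K] [CharZero K] (x : Fin (n + 1) → K) (l : Fin 2 → K), x ≠ 0 → l ≠ 0 →
    (∀ j, MvPolynomial.aeval x (q j) = 0) →
    ∃ i, ∑ j, l j * MvPolynomial.aeval x (MvPolynomial.pderiv i (q j)) ≠ 0

/-- The intersection `q 0 = q 1 = 0` in `ℙⁿ` has a rational point. -/
def HasRationalPoint {n : ℕ} (q : Fin 2 → MvPolynomial (Fin (n + 1)) ℤ) : Prop :=
  ∃ x : Fin (n + 1) → ℚ, x ≠ 0 ∧ ∀ j, MvPolynomial.aeval x (q j) = 0

/-- The intersection `q 0 = q 1 = 0` in `ℙⁿ` has a zero-cycle of degree one over the field `K`: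
there are finitely many finite extensions `L i` of `K` over which it has a point, and integers
`m i` with `∑ m i * [L i : K] = 1`. (A point over `L i` is a closed point together with an embedding
of its residue field in `L i`, so this says that the degrees of the closed points have greatest
common divisor one.) -/
def HasZeroCycleOfDegreeOne {n : ℕ} (q : Fin 2 → MvPolynomial (Fin (n + 1)) ℤ) (K : Type)
    [Field K] : Prop :=
  ∃ (t : ℕ) (L : Fin t → Type) (_ : ∀ i, Field (L i)) (_ : ∀ i, Algebra K (L i)) (m : Fin t → ℤ),
    (∀ i, FiniteDimensional K (L i)) ∧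
    (∀ i, ∃ x : Fin (n + 1) → L i, x ≠ 0 ∧ ∀ j, MvPolynomial.aeval x (q j) = 0) ∧
    ∑ i, m i * (Module.finrank K (L i) : ℤ) = 1

/-- For `n ≥ 4`, 100% of the smooth complete intersections of two quadrics in `ℙⁿ`, ordered by
height, which have zero-cycles of degree one over the real numbers and over all the `p`-adic fields
have a rational point. -/
theorem result (n : ℕ) (hn : 4 ≤ n) :
    Filter.Tendsto (fun H : ℕ =>
      (({q | q ∈ Pairs n H ∧ Smooth q ∧ HasRationalPoint q} : Set _).ncard : ℝ) /
      (({q | q ∈ Pairs n H ∧ Smooth q ∧ HasZeroCycleOfDegreeOne q ℝ ∧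
        ∀ (p : ℕ) [Fact p.Prime], HasZeroCycleOfDegreeOne q ℚ_[p]} : Set _).ncard : ℝ))
    Filter.atTop (nhds 1) :=
  Pool.Agent.Y716.D.zc_smooth_all n hn

end Pool.Agent.Results.MP_1ad228_nt.TwoQuadricsZeroCycles
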